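import Mathlib

/-!
# Rational finitely presented isometric actions of finite groups do not amalgamate

Two rational finitely presented actions of the group with two elements over the same plane
(with the `ℓ¹` norm and the trivial group) which cannot be amalgamated over any finite group.
-/

open Finset

namespace Pool.Agent.Results.MP_66eb21_an.NoAmalgamation

open Classical in
/-- The basis vector `x_{g,i}` of the space `E_{F,I}` of all functions `F × I → ℝ`. -/
noncomputable def bv {F I : Type} (g : F) (i : I) : F × I → ℝ :=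
  fun p => if p = (g, i) then 1 else 0

/-- The action of `F` on `E_{F,I}`; it sends `x_{f,i}` to `x_{g f,i}`. -/
def act {F I : Type} [Group F] (g : F) (x : F × I → ℝ) : F × I → ℝ :=
  fun p => x (g⁻¹ * p.1, p.2)

/-- The linear map `E_{F,I} → E_{H,J}` with `x_{g,i} ↦ x_{φ g, ψ i}`. -/
noncomputable def push {F I H J : Type} [Fintype F] [Fintype I] (φ : F → H) (ψ : I → J)
    (x : F × I → ℝ) : H × J → ℝ :=
  ∑ p : F × I, x p • bv (φ p.1) (ψ p.2)

/-- A rational finitely presented action: a finite group `F`, a nonempty finite set `I`, an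
admissible finite set `W` of vectors of `E_{F,I}` with rational coordinates, and a partial
`F`-norm `N` on `W` with rational values (the values of `N` outside `W` are irrelevant). -/
structure FPAction where
  F : Type
  [groupF : Group F]
  [fintypeF : Fintype F]
  I : Type
  [fintypeI : Fintype I]
  [nonemptyI : Nonempty I]
  W : Set (F × I → ℝ)
  N : (F × I → ℝ) → ℝ
  finite_W : W.Finite
  zero_mem : 0 ∈ W
  neg_mem : ∀ w ∈ W, -w ∈ W
  act_mem : ∀ g : F, ∀ w ∈ W, act g w ∈ W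
  sub_mem : ∀ i j : I, i ≠ j → bv 1 i - bv 1 j ∈ W
  basis_mem : ∀ (g : F) (i : I), bv g i ∈ W
  N_nonneg : ∀ w ∈ W, 0 ≤ N w
  N_eq_zero : ∀ w ∈ W, (N w = 0 ↔ w = 0)
  N_smul : ∀ (α : ℝ), ∀ w ∈ W, α • w ∈ W → N (α • w) = |α| * N w
  N_sum : ∀ (n : ℕ) (α : Fin n → ℝ) (v : Fin n → F × I → ℝ), (∀ k, v k ∈ W) →
    ∀ w ∈ W, w = ∑ k, α k • v k → N w ≤ ∑ k, |α k| * N (v k)
  N_act : ∀ (g : F), ∀ w ∈ W, N (act g w) = N w
  rational_W : ∀ w ∈ W, ∀ p, ∃ q : ℚ, w p = q
  rational_N : ∀ w ∈ W, ∃ q : ℚ, N w = q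

attribute [instance] FPAction.groupF FPAction.fintypeF FPAction.fintypeI FPAction.nonemptyI

/-- The maximal extension of the partial norm, a norm on `E_{F,I}`. -/
noncomputable def FPAction.norm (A : FPAction) (x : A.F × A.I → ℝ) : ℝ :=
  sInf {c | ∃ (n : ℕ) (β : Fin n → ℝ) (w : Fin n → A.F × A.I → ℝ),
    (∀ j, w j ∈ A.W) ∧ x = ∑ j, β j • w j ∧ c = ∑ j, |β j| * A.N (w j)}

/-- An embedding: an injective homomorphism `φ` and an injection `ψ` such that the linear map
`x_{g,i} ↦ x_{φ g, ψ i}` is isometric. -/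
structure Embedding (A B : FPAction) where
  φ : A.F →* B.F
  φ_inj : Function.Injective φ
  ψ : A.I → B.I
  ψ_inj : Function.Injective ψ
  isometric : ∀ x : A.F × A.I → ℝ, B.norm (push φ ψ x) = A.norm x

/-- The amalgamation property of the class of all rational finitely presented actions. -/
def AmalgamationProperty : Prop :=
  ∀ (A B C : FPAction) (e₁ : Embedding A B) (e₂ : Embedding A C),
    ∃ (D : FPAction) (f₁ : Embedding B D) (f₂ : Embedding C D),
      (∀ g, f₁.φ (e₁.φ g) = f₂.φ (e₂.φ g)) ∧ (∀ i, f₁.ψ (e₁.ψ i) = f₂.ψ (e₂.ψ i))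

/-! ### Generalities -/

section General

variable {F I : Type}

theorem bv_same (g : F) (i : I) : bv g i (g, i) = 1 := by simp [bv]

theorem act_bv [Group F] (g f : F) (i : I) : act g (bv f i) = bv (g * f) i := by
  funext p
  obtain ⟨a, b⟩ := p
  have key : (((g⁻¹ * a, b) : F × I) = (f, i)) ↔ (((a, b) : F × I) = (g * f, i)) := by
    simp only [Prod.mk.injEq]
    have : (g⁻¹ * a = f) ↔ (a = g * f) := by
      constructor
      · rintro rfl; simp
      · rintro rfl; simp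
    rw [this]
  by_cases h : ((a, b) : F × I) = (g * f, i)
  · have h' := key.mpr h
    change bv f i (g⁻¹ * a, b) = bv (g * f) i (a, b)
    rw [bv, if_pos h', bv, if_pos h]
  · have h' := fun h'' => h (key.mp h'')
    change bv f i (g⁻¹ * a, b) = bv (g * f) i (a, b)
    rw [bv, if_neg h', bv, if_neg h]

theorem act_sub [Group F] (g : F) (x y : F × I → ℝ) : act g (x - y) = act g x - act g y := rfl

theorem act_neg [Group F] (g : F) (x : F × I → ℝ) : act g (-x) = -act g x := rfl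

theorem act_smul [Group F] (g : F) (c : ℝ) (x : F × I → ℝ) : act g (c • x) = c • act g x := rfl

theorem act_zero [Group F] (g : F) : act g (0 : F × I → ℝ) = 0 := rfl

theorem act_act [Group F] (g h : F) (x : F × I → ℝ) : act g (act h x) = act (g * h) x := by
  funext p
  simp [act, mul_assoc]

theorem act_sum [Group F] {ι : Type} (s : Finset ι) (g : F) (x : ι → F × I → ℝ) :
    act g (∑ i ∈ s, x i) = ∑ i ∈ s, act g (x i) := by
  funext p
  change (∑ i ∈ s, x i) (g⁻¹ * p.1, p.2) = (∑ i ∈ s, act g (x i)) p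
  rw [Finset.sum_apply, Finset.sum_apply]
  rfl

end General

theorem eq_sum_bv {F I : Type} [Fintype F] [Fintype I] (x : F × I → ℝ) :
    x = ∑ p : F × I, x p • bv p.1 p.2 := by
  funext q
  rw [Finset.sum_apply, Finset.sum_eq_single q]
  · simp [bv]
  · intro b _ hb
    have : q ≠ b := fun h => hb h.symm
    simp [bv, this]
  · simp

theorem push_add {F I H J : Type} [Fintype F] [Fintype I] (φ : F → H) (ψ : I → J)
    (x y : F × I → ℝ) : push φ ψ (x + y) = push φ ψ x + push φ ψ y := by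
  simp [push, add_smul, Finset.sum_add_distrib]

theorem push_smul {F I H J : Type} [Fintype F] [Fintype I] (φ : F → H) (ψ : I → J)
    (c : ℝ) (x : F × I → ℝ) : push φ ψ (c • x) = c • push φ ψ x := by
  simp [push, Finset.smul_sum, smul_smul]

theorem push_bv {F I H J : Type} [Fintype F] [Fintype I] (φ : F → H) (ψ : I → J) (g : F) (i : I) :
    push φ ψ (bv g i) = bv (φ g) (ψ i) := by
  rw [push, Finset.sum_eq_single (g, i)]
  · simp [bv]
  · intro b _ hb
    simp [bv, hb]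
  · simp

theorem push_sub_smul {F I H J : Type} [Fintype F] [Fintype I] (φ : F → H) (ψ : I → J)
    (c : ℝ) (g h : F) (i j : I) :
    push φ ψ (bv g i - c • bv h j) = bv (φ g) (ψ i) - c • bv (φ h) (ψ j) := by
  have : bv g i - c • bv h j = bv g i + (-c) • bv h j := by
    rw [neg_smul, sub_eq_add_neg]
  rw [this, push_add, push_smul, push_bv, push_bv, neg_smul, ← sub_eq_add_neg]

namespace FPAction

variable (A : FPAction)

/-- the set of costs -/
def costs (x : A.F × A.I → ℝ) : Set ℝ :=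
  {c | ∃ (n : ℕ) (β : Fin n → ℝ) (w : Fin n → A.F × A.I → ℝ),
    (∀ j, w j ∈ A.W) ∧ x = ∑ j, β j • w j ∧ c = ∑ j, |β j| * A.N (w j)}

theorem norm_def (x : A.F × A.I → ℝ) : A.norm x = sInf (A.costs x) := rfl

theorem mem_costs {ι : Type} [Fintype ι] (β : ι → ℝ) (w : ι → A.F × A.I → ℝ)
    (hw : ∀ j, w j ∈ A.W) : (∑ j, |β j| * A.N (w j)) ∈ A.costs (∑ j, β j • w j) := by
  let e := (Fintype.equivFin ι).symm
  refine ⟨Fintype.card ι, β ∘ e, w ∘ e, fun j => hw _, ?_, ?_⟩
  · exact (Equiv.sum_comp e (fun j => β j • w j)).symm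
  · exact (Equiv.sum_comp e (fun j => |β j| * A.N (w j))).symm

theorem costs_nonneg {x : A.F × A.I → ℝ} {c : ℝ} (hc : c ∈ A.costs x) : 0 ≤ c := by
  obtain ⟨n, β, w, hw, -, rfl⟩ := hc
  exact Finset.sum_nonneg fun j _ => mul_nonneg (abs_nonneg _) (A.N_nonneg _ (hw j))

theorem bddBelow_costs (x : A.F × A.I → ℝ) : BddBelow (A.costs x) :=
  ⟨0, fun _ hc => A.costs_nonneg hc⟩

theorem costs_nonempty (x : A.F × A.I → ℝ) : (A.costs x).Nonempty := by
  have h := A.mem_costs (fun p : A.F × A.I => x p) (fun p => bv p.1 p.2)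
    (fun p => A.basis_mem _ _)
  rw [← eq_sum_bv x] at h
  exact ⟨_, h⟩

theorem norm_le_of_mem {x : A.F × A.I → ℝ} {c : ℝ} (hc : c ∈ A.costs x) : A.norm x ≤ c :=
  csInf_le (A.bddBelow_costs x) hc

theorem norm_le_sum {ι : Type} [Fintype ι] (β : ι → ℝ) (w : ι → A.F × A.I → ℝ)
    (hw : ∀ j, w j ∈ A.W) : A.norm (∑ j, β j • w j) ≤ ∑ j, |β j| * A.N (w j) :=
  A.norm_le_of_mem (A.mem_costs β w hw)

theorem norm_le_N {w : A.F × A.I → ℝ} (hw : w ∈ A.W) : A.norm w ≤ A.N w := by
  have := A.norm_le_sum (ι := Unit) (fun _ => 1) (fun _ => w) (fun _ => hw)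
  simpa using this

theorem norm_add_le (x y : A.F × A.I → ℝ) : A.norm (x + y) ≤ A.norm x + A.norm y := by
  refine le_of_forall_pos_le_add fun ε hε => ?_
  obtain ⟨c, hc, hc'⟩ := exists_lt_of_csInf_lt (A.costs_nonempty x)
    (show sInf (A.costs x) < sInf (A.costs x) + ε / 2 by linarith)
  obtain ⟨d, hd, hd'⟩ := exists_lt_of_csInf_lt (A.costs_nonempty y)
    (show sInf (A.costs y) < sInf (A.costs y) + ε / 2 by linarith)
  obtain ⟨n, β, w, hw, hx, rfl⟩ := hc
  obtain ⟨m, γ, v, hv, hy, rfl⟩ := hd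
  have h := A.norm_le_sum (ι := Fin n ⊕ Fin m) (Sum.elim β γ) (Sum.elim w v)
    (by rintro (j | j); exacts [hw j, hv j])
  simp only [Fintype.sum_sum_type, Sum.elim_inl, Sum.elim_inr] at h
  rw [← hx, ← hy] at h
  simp only [norm_def] at h ⊢
  linarith

theorem norm_smul_le (c : ℝ) (x : A.F × A.I → ℝ) : A.norm (c • x) ≤ |c| * A.norm x := by
  rcases eq_or_ne c 0 with rfl | hc0
  · have := A.norm_le_sum (ι := Empty) (fun _ => 0) (fun _ => 0) (fun j => j.elim)
    simpa using this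
  have hc : 0 < |c| := abs_pos.mpr hc0
  have key : ∀ d ∈ A.costs x, A.norm (c • x) / |c| ≤ d := by
    rintro d ⟨n, β, w, hw, hx, rfl⟩
    rw [div_le_iff₀ hc]
    have h := A.norm_le_sum (fun j => c * β j) w hw
    have e1 : ∑ j, (c * β j) • w j = c • x := by
      rw [hx, Finset.smul_sum]
      exact Finset.sum_congr rfl fun j _ => by rw [smul_smul]
    have e2 : ∑ j, |c * β j| * A.N (w j) = (∑ j, |β j| * A.N (w j)) * |c| := by
      rw [Finset.sum_mul]
      exact Finset.sum_congr rfl fun j _ => by rw [abs_mul]; ring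
    rw [e1, e2] at h
    exact h
  have h := le_csInf (A.costs_nonempty x) key
  rw [div_le_iff₀ hc] at h
  rw [norm_def A x, mul_comm]
  exact h

theorem norm_act_le (g : A.F) (x : A.F × A.I → ℝ) : A.norm (act g x) ≤ A.norm x := by
  refine le_csInf (A.costs_nonempty x) ?_
  rintro d ⟨n, β, w, hw, hx, rfl⟩
  have h := A.norm_le_sum β (fun j => act g (w j)) (fun j => A.act_mem g _ (hw j))
  have e1 : ∑ j, β j • act g (w j) = act g x := by
    rw [hx, act_sum]; rfl
  rw [e1] at h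
  refine h.trans (le_of_eq (Finset.sum_congr rfl fun j _ => ?_))
  rw [A.N_act g _ (hw j)]

/-- A seminorm that is below `N` on `W` is below the maximal extension. -/
theorem le_norm (M : (A.F × A.I → ℝ) → ℝ)
    (hadd : ∀ (n : ℕ) (β : Fin n → ℝ) (w : Fin n → A.F × A.I → ℝ),
      M (∑ j, β j • w j) ≤ ∑ j, |β j| * M (w j))
    (hM : ∀ w ∈ A.W, M w ≤ A.N w) (x : A.F × A.I → ℝ) : M x ≤ A.norm x := by
  refine le_csInf (A.costs_nonempty x) ?_
  rintro d ⟨n, β, w, hw, hx, rfl⟩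
  rw [hx]
  exact (hadd n β w).trans (Finset.sum_le_sum fun j _ =>
    mul_le_mul_of_nonneg_left (hM _ (hw j)) (abs_nonneg _))

end FPAction

/-! ### The chain argument -/

theorem chain (D : FPAction) (g h : D.F) (m₁ m₂ : D.I)
    (hB : D.norm (bv 1 m₁ - (1 / 2 : ℝ) • bv g m₂) ≤ 1 / 2)
    (hC : D.norm (bv 1 m₂ - (1 / 2 : ℝ) • bv h m₁) ≤ 1 / 2) (k : ℕ) :
    D.norm (bv 1 m₁ - ((1 / 4 : ℝ) ^ k * (1 / 2)) • bv ((g * h) ^ k * g) m₂)
      ≤ 1 - (1 / 4 : ℝ) ^ k * (1 / 2) := by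
  induction k with
  | zero =>
    simp only [pow_zero, one_mul]
    refine hB.trans (by norm_num)
  | succ k ih =>
    set c : ℝ := (1 / 4 : ℝ) ^ k with hc
    have hcpos : 0 < c := by positivity
    have e : bv 1 m₁ - ((1 / 4 : ℝ) ^ (k + 1) * (1 / 2)) • bv ((g * h) ^ (k + 1) * g) m₂
        = (bv 1 m₁ - (c * (1 / 2)) • bv ((g * h) ^ k * g) m₂)
          + ((c * (1 / 2)) • act ((g * h) ^ k * g) (bv 1 m₂ - (1 / 2 : ℝ) • bv h m₁)
          + (c * (1 / 4)) • act ((g * h) ^ (k + 1)) (bv 1 m₁ - (1 / 2 : ℝ) • bv g m₂)) := by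
      simp only [act_sub, act_smul, act_bv, mul_one, pow_succ]
      rw [← hc]
      have e1 : (g * h) ^ k * g * h = (g * h) ^ k * (g * h) := by rw [mul_assoc]
      rw [e1]
      funext p
      simp only [Pi.sub_apply, Pi.add_apply, Pi.smul_apply, smul_eq_mul]
      ring
    rw [e]
    have h1 := D.norm_add_le (bv 1 m₁ - (c * (1 / 2)) • bv ((g * h) ^ k * g) m₂)
      ((c * (1 / 2)) • act ((g * h) ^ k * g) (bv 1 m₂ - (1 / 2 : ℝ) • bv h m₁)
          + (c * (1 / 4)) • act ((g * h) ^ (k + 1)) (bv 1 m₁ - (1 / 2 : ℝ) • bv g m₂))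
    have h2 := D.norm_add_le
      ((c * (1 / 2)) • act ((g * h) ^ k * g) (bv 1 m₂ - (1 / 2 : ℝ) • bv h m₁))
      ((c * (1 / 4)) • act ((g * h) ^ (k + 1)) (bv 1 m₁ - (1 / 2 : ℝ) • bv g m₂))
    have h3 := D.norm_smul_le (c * (1 / 2))
      (act ((g * h) ^ k * g) (bv 1 m₂ - (1 / 2 : ℝ) • bv h m₁))
    have h4 := D.norm_smul_le (c * (1 / 4))
      (act ((g * h) ^ (k + 1)) (bv 1 m₁ - (1 / 2 : ℝ) • bv g m₂))
    have h5 := (D.norm_act_le ((g * h) ^ k * g) (bv 1 m₂ - (1 / 2 : ℝ) • bv h m₁)).trans hC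
    have h6 := (D.norm_act_le ((g * h) ^ (k + 1)) (bv 1 m₁ - (1 / 2 : ℝ) • bv g m₂)).trans hB
    rw [abs_of_pos (by positivity)] at h3 h4
    have h7 : c * (1 / 2) * D.norm (act ((g * h) ^ k * g) (bv 1 m₂ - (1 / 2 : ℝ) • bv h m₁))
        ≤ c * (1 / 2) * (1 / 2) := mul_le_mul_of_nonneg_left h5 (by positivity)
    have h8 : c * (1 / 4) * D.norm (act ((g * h) ^ (k + 1)) (bv 1 m₁ - (1 / 2 : ℝ) • bv g m₂))
        ≤ c * (1 / 4) * (1 / 2) := mul_le_mul_of_nonneg_left h6 (by positivity)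
    have h9 : (1 / 4 : ℝ) ^ (k + 1) = c * (1 / 4) := by rw [pow_succ]
    rw [h9]
    nlinarith [h1, h2, h3, h4, h7, h8, ih]

/-! ### The examples -/

/-- An `F`-invariant norm on the space `E_{F,I}`. -/
structure IsNorm {F I : Type} [Group F] (M : (F × I → ℝ) → ℝ) : Prop where
  nonneg : ∀ x, 0 ≤ M x
  eq_zero : ∀ x, M x = 0 → x = 0
  smul : ∀ (c : ℝ) x, M (c • x) = |c| * M x
  add : ∀ x y, M (x + y) ≤ M x + M y
  act : ∀ g x, M (act g x) = M x

namespace IsNorm

variable {F I : Type} [Group F] {M : (F × I → ℝ) → ℝ} (hM : IsNorm M)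
include hM

theorem zero : M 0 = 0 := by
  have := hM.smul 0 0
  simpa using this

theorem sum {ι : Type} (s : Finset ι) (β : ι → ℝ) (w : ι → F × I → ℝ) :
    M (∑ j ∈ s, β j • w j) ≤ ∑ j ∈ s, |β j| * M (w j) := by
  classical
  induction s using Finset.induction_on with
  | empty => simp [hM.zero]
  | insert a s ha ih =>
    rw [Finset.sum_insert ha, Finset.sum_insert ha]
    refine (hM.add _ _).trans ?_
    rw [hM.smul]
    linarith

end IsNorm

/-- The norm `∑_g max (|x (g, b) + x (-g, !b)|) (|x (-g, !b)|)`. -/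
noncomputable def nrm (b : Bool) (x : ℤˣ × Bool → ℝ) : ℝ :=
  ∑ g : ℤˣ, max |x (g, b) + x (-g, !b)| |x (-g, !b)|

theorem nrm_isNorm (b : Bool) : IsNorm (nrm b) where
  nonneg x := Finset.sum_nonneg fun g _ => le_max_of_le_left (abs_nonneg _)
  eq_zero x hx := by
    have h := (Finset.sum_eq_zero_iff_of_nonneg
      (fun g _ => le_max_of_le_left (abs_nonneg _))).mp hx
    have h1 : ∀ g : ℤˣ, x (-g, !b) = 0 := by
      intro g
      have h2 := h g (Finset.mem_univ _)
      have h3 : |x (-g, !b)| ≤ 0 := by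
        rw [← h2]; exact le_max_right _ _
      exact abs_eq_zero.mp (le_antisymm h3 (abs_nonneg _))
    have h4 : ∀ g : ℤˣ, x (g, b) = 0 := by
      intro g
      have h2 := h g (Finset.mem_univ _)
      have h3 : |x (g, b) + x (-g, !b)| ≤ 0 := by
        rw [← h2]; exact le_max_left _ _
      have h5 := abs_eq_zero.mp (le_antisymm h3 (abs_nonneg _))
      rw [h1 g, add_zero] at h5
      exact h5
    funext p
    obtain ⟨g, i⟩ := p
    rcases Bool.eq_or_eq_not i b with rfl | rfl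
    · exact h4 g
    · have := h1 (-g)
      rw [neg_neg] at this
      exact this
  smul c x := by
    simp only [nrm, Pi.smul_apply, smul_eq_mul, ← mul_add, abs_mul, Finset.mul_sum]
    exact Finset.sum_congr rfl fun g _ => (mul_max_of_nonneg _ _ (abs_nonneg c)).symm
  add x y := by
    simp only [nrm, Pi.add_apply, ← Finset.sum_add_distrib]
    refine Finset.sum_le_sum fun g _ => max_le ?_ ?_
    · have h1 := le_max_left |x (g, b) + x (-g, !b)| |x (-g, !b)|
      have h2 := le_max_left |y (g, b) + y (-g, !b)| |y (-g, !b)|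
      have h3 := abs_add_le (x (g, b) + x (-g, !b)) (y (g, b) + y (-g, !b))
      have h4 : x (g, b) + y (g, b) + (x (-g, !b) + y (-g, !b)) = (x (g, b) + x (-g, !b))
          + (y (g, b) + y (-g, !b)) := by ring
      rw [h4]
      linarith
    · have h1 := le_max_right |x (g, b) + x (-g, !b)| |x (-g, !b)|
      have h2 := le_max_right |y (g, b) + y (-g, !b)| |y (-g, !b)|
      have h3 := abs_add_le (x (-g, !b)) (y (-g, !b))
      linarith
  act k x := by
    simp only [nrm, act]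
    rw [← Equiv.sum_comp (Equiv.mulLeft k)]
    refine Finset.sum_congr rfl fun g _ => ?_
    have e1 : k⁻¹ * (k * g) = g := inv_mul_cancel_left k g
    have e2 : k⁻¹ * (-(k * g)) = -g := by rw [mul_neg, inv_mul_cancel_left]
    simp only [Equiv.coe_mulLeft, e1, e2]

theorem nrm_eq (b : Bool) (x : ℤˣ × Bool → ℝ) :
    nrm b x = max |x (1, b) + x (-1, !b)| |x (-1, !b)| + max |x (-1, b) + x (1, !b)| |x (1, !b)| := by
  rw [nrm, UnitsInt.univ, Finset.sum_pair (by decide), neg_neg]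

/-- the `ℓ¹` norm -/
noncomputable def one {F : Type} [Fintype F] (x : F × Bool → ℝ) : ℝ := ∑ p, |x p|

theorem one_isNorm {F : Type} [Group F] [Fintype F] : IsNorm (one : (F × Bool → ℝ) → ℝ) where
  nonneg x := Finset.sum_nonneg fun g _ => abs_nonneg _
  eq_zero x hx := by
    have h := (Finset.sum_eq_zero_iff_of_nonneg (fun g _ => abs_nonneg _)).mp hx
    funext p
    exact abs_eq_zero.mp (h p (Finset.mem_univ _))
  smul c x := by
    simp only [one, Pi.smul_apply, smul_eq_mul, abs_mul, Finset.mul_sum]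
  add x y := by
    simp only [one, Pi.add_apply, ← Finset.sum_add_distrib]
    exact Finset.sum_le_sum fun g _ => abs_add_le _ _
  act k x := by
    simp only [one, act]
    exact Equiv.sum_comp ((Equiv.mulLeft k⁻¹).prodCongr (Equiv.refl Bool)) (fun p => |x p|)

/-- rational real numbers -/
def IsRat (r : ℝ) : Prop := ∃ q : ℚ, r = q

theorem IsRat.add {a b : ℝ} (ha : IsRat a) (hb : IsRat b) : IsRat (a + b) := by
  obtain ⟨p, rfl⟩ := ha; obtain ⟨q, rfl⟩ := hb; exact ⟨p + q, by push_cast; rfl⟩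

theorem IsRat.neg {a : ℝ} (ha : IsRat a) : IsRat (-a) := by
  obtain ⟨p, rfl⟩ := ha; exact ⟨-p, by push_cast; rfl⟩

theorem IsRat.sub {a b : ℝ} (ha : IsRat a) (hb : IsRat b) : IsRat (a - b) := by
  rw [sub_eq_add_neg]; exact ha.add hb.neg

theorem IsRat.mul {a b : ℝ} (ha : IsRat a) (hb : IsRat b) : IsRat (a * b) := by
  obtain ⟨p, rfl⟩ := ha; obtain ⟨q, rfl⟩ := hb; exact ⟨p * q, by push_cast; rfl⟩

theorem IsRat.abs {a : ℝ} (ha : IsRat a) : IsRat |a| := by
  obtain ⟨p, rfl⟩ := ha; exact ⟨|p|, by push_cast; rfl⟩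

theorem IsRat.max {a b : ℝ} (ha : IsRat a) (hb : IsRat b) : IsRat (max a b) := by
  obtain ⟨p, rfl⟩ := ha; obtain ⟨q, rfl⟩ := hb; exact ⟨Max.max p q, by push_cast; rfl⟩

theorem IsRat.sum {ι : Type} (s : Finset ι) (f : ι → ℝ) (h : ∀ i, IsRat (f i)) :
    IsRat (∑ i ∈ s, f i) := by
  classical
  induction s using Finset.induction_on with
  | empty => exact ⟨0, by simp⟩
  | insert a s ha ih => rw [Finset.sum_insert ha]; exact (h a).add ih

theorem isRat_bv {F I : Type} (g : F) (i : I) (p : F × I) : IsRat (bv g i p) := by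
  unfold bv
  split_ifs
  · exact ⟨1, by simp⟩
  · exact ⟨0, by simp⟩

/-- the special vectors `x_{g,b} - x_{-g,!b} / 2` -/
noncomputable def u (b : Bool) (g : ℤˣ) : ℤˣ × Bool → ℝ := bv g b - (1 / 2 : ℝ) • bv (-g) (!b)

/-- the common part of the sets `W` -/
def W₀ (F : Type) : Set (F × Bool → ℝ) :=
  (({0} ∪ Set.range (fun p : F × Bool => bv p.1 p.2)) ∪
    Set.range (fun p : F × Bool => -bv p.1 p.2)) ∪
    Set.range (fun p : F × Bool => bv p.1 p.2 - bv p.1 (!p.2))

theorem W₀_cases {F : Type} {P : (F × Bool → ℝ) → Prop} (h0 : P 0) (h1 : ∀ g i, P (bv g i))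
    (h2 : ∀ g i, P (-bv g i)) (h3 : ∀ g i, P (bv g i - bv g (!i))) : ∀ w ∈ W₀ F, P w := by
  rintro w (((rfl | ⟨p, rfl⟩) | ⟨p, rfl⟩) | ⟨p, rfl⟩)
  exacts [h0, h1 _ _, h2 _ _, h3 _ _]

theorem W₀_zero {F : Type} : (0 : F × Bool → ℝ) ∈ W₀ F := Or.inl (Or.inl (Or.inl rfl))

theorem W₀_bv {F : Type} (g : F) (i : Bool) : bv g i ∈ W₀ F := Or.inl (Or.inl (Or.inr ⟨(g, i), rfl⟩))

theorem W₀_neg_bv {F : Type} (g : F) (i : Bool) : -bv g i ∈ W₀ F := Or.inl (Or.inr ⟨(g, i), rfl⟩)

theorem W₀_sub {F : Type} (g : F) (i : Bool) : bv g i - bv g (!i) ∈ W₀ F := Or.inr ⟨(g, i), rfl⟩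

theorem W₀_finite {F : Type} [Finite F] : (W₀ F).Finite := by
  unfold W₀
  exact Set.toFinite _

theorem W₀_neg {F : Type} : ∀ w ∈ W₀ F, -w ∈ W₀ F := by
  refine W₀_cases ?_ ?_ ?_ ?_
  · rw [neg_zero]; exact W₀_zero
  · exact W₀_neg_bv
  · intro g i; rw [neg_neg]; exact W₀_bv g i
  · intro g i
    rw [neg_sub]
    have := W₀_sub g (!i)
    rwa [Bool.not_not] at this

theorem W₀_act {F : Type} [Group F] (g : F) : ∀ w ∈ W₀ F, act g w ∈ W₀ F := by
  refine W₀_cases ?_ ?_ ?_ ?_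
  · rw [act_zero]; exact W₀_zero
  · intro f i; rw [act_bv]; exact W₀_bv _ _
  · intro f i; rw [act_neg, act_bv]; exact W₀_neg_bv _ _
  · intro f i; rw [act_sub, act_bv, act_bv]; exact W₀_sub _ _

theorem W₀_diff {F : Type} [Group F] (i j : Bool) (hij : i ≠ j) :
    (bv 1 i - bv 1 j : F × Bool → ℝ) ∈ W₀ F := by
  have : j = !i := by revert hij; revert i j; decide
  rw [this]
  exact W₀_sub _ _

theorem W₀_rat {F : Type} : ∀ w ∈ W₀ F, ∀ p, IsRat (w p) := by
  refine W₀_cases ?_ ?_ ?_ ?_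
  · intro p; exact ⟨0, by simp⟩
  · intro g i p; exact isRat_bv _ _ _
  · intro g i p; exact (isRat_bv _ _ _).neg
  · intro g i p; exact (isRat_bv _ _ _).sub (isRat_bv _ _ _)

/-- A finitely presented action from a norm. -/
noncomputable def mk (F : Type) [Group F] [Fintype F] (M : (F × Bool → ℝ) → ℝ) (hM : IsNorm M)
    (V : Set (F × Bool → ℝ)) (hV : V.Finite) (hneg : ∀ w ∈ V, -w ∈ V)
    (hact : ∀ g : F, ∀ w ∈ V, act g w ∈ V) (hrat : ∀ w ∈ V, ∀ p, IsRat (w p))
    (hMrat : ∀ w, (∀ p, IsRat (w p)) → IsRat (M w)) : FPAction where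
  F := F
  I := Bool
  W := W₀ F ∪ V
  N := M
  finite_W := W₀_finite.union hV
  zero_mem := Or.inl W₀_zero
  neg_mem := by
    rintro w (hw | hw)
    · exact Or.inl (W₀_neg w hw)
    · exact Or.inr (hneg w hw)
  act_mem := by
    rintro g w (hw | hw)
    · exact Or.inl (W₀_act g w hw)
    · exact Or.inr (hact g w hw)
  sub_mem i j hij := Or.inl (W₀_diff i j hij)
  basis_mem g i := Or.inl (W₀_bv g i)
  N_nonneg w _ := hM.nonneg w
  N_eq_zero w _ := ⟨hM.eq_zero w, fun h => by rw [h]; exact hM.zero⟩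
  N_smul α w _ _ := hM.smul α w
  N_sum n α v _ w _ hw := by
    rw [hw]
    exact hM.sum _ _ _
  N_act g w _ := hM.act g w
  rational_W := by
    rintro w (hw | hw)
    · exact W₀_rat w hw
    · exact hrat w hw
  rational_N := by
    rintro w (hw | hw)
    · exact hMrat w (W₀_rat w hw)
    · exact hMrat w (hrat w hw)

/-- the base -/
noncomputable def base : FPAction :=
  mk Unit one one_isNorm ∅ Set.finite_empty (fun _ hw => hw.elim) (fun _ _ hw => hw.elim)
    (fun _ hw => hw.elim) (fun _ hw => IsRat.sum _ _ fun p => (hw p).abs)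

/-- the two actions of the group with two elements -/
noncomputable def ext (b : Bool) : FPAction :=
  mk ℤˣ (nrm b) (nrm_isNorm b) (Set.range (u b) ∪ Set.range (fun g => -u b g))
    (Set.toFinite _)
    (by
      rintro w (⟨g, rfl⟩ | ⟨g, rfl⟩)
      · exact Or.inr ⟨g, rfl⟩
      · simp only [neg_neg]; exact Or.inl ⟨g, rfl⟩)
    (by
      have key : ∀ g h : ℤˣ, act g (u b h) = u b (g * h) := by
        intro g h
        rw [u, act_sub, act_smul, act_bv, act_bv, mul_neg]
        rfl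
      rintro g w (⟨h, rfl⟩ | ⟨h, rfl⟩)
      · exact Or.inl ⟨g * h, (key g h).symm⟩
      · exact Or.inr ⟨g * h, by simp only [act_neg, key]⟩)
    (by
      have key : ∀ (g : ℤˣ) p, IsRat (u b g p) := fun g p =>
        (isRat_bv _ _ _).sub (IsRat.mul ⟨1 / 2, by push_cast; rfl⟩ (isRat_bv _ _ _))
      rintro w (⟨h, rfl⟩ | ⟨h, rfl⟩) p
      · exact key _ _
      · exact (key _ _).neg)
    (fun w hw => IsRat.sum _ _ fun g => ((hw _).add (hw _)).abs.max (hw _).abs)

theorem base_norm (x : Unit × Bool → ℝ) : base.norm x = ∑ p, |x p| := by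
  apply le_antisymm
  · have h := base.norm_le_sum (fun p : Unit × Bool => x p) (fun p => bv p.1 p.2)
      (fun p => base.basis_mem p.1 p.2)
    have e : ∑ p : Unit × Bool, x p • bv p.1 p.2 = x := (eq_sum_bv x).symm
    refine (le_of_eq ?_).trans (h.trans (le_of_eq ?_))
    · exact congrArg base.norm e.symm
    · refine Finset.sum_congr rfl fun p _ => ?_
      have : base.N (bv p.1 p.2) = 1 := by
        change ∑ q : Unit × Bool, |bv p.1 p.2 q| = 1
        rw [Finset.sum_eq_single p]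
        · simp [bv]
        · intro q _ hq
          simp [bv, hq]
        · simp
      rw [this, mul_one]
  · exact base.le_norm one (fun n β w => one_isNorm.sum _ _ _) (fun w _ => le_refl _) x

theorem nrm_bv (b i : Bool) : nrm b (bv 1 i) = 1 := by
  rw [nrm_eq]
  rcases b <;> rcases i <;> simp [bv]

theorem ext_norm (b : Bool) (x : Unit × Bool → ℝ) :
    (ext b).norm (push (fun _ : Unit => (1 : ℤˣ)) id x) = ∑ p, |x p| := by
  apply le_antisymm
  · have h := (ext b).norm_le_sum (fun p : Unit × Bool => x p) (fun p => bv 1 p.2)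
      (fun p => (ext b).basis_mem 1 p.2)
    refine h.trans (le_of_eq ?_)
    refine Finset.sum_congr rfl fun p _ => ?_
    have : (ext b).N (bv 1 p.2) = 1 := nrm_bv b p.2
    rw [this, mul_one]
  · refine le_trans (le_of_eq ?_) ((ext b).le_norm (nrm b)
      (fun n β w => (nrm_isNorm b).sum _ _ _) (fun w _ => le_refl _) _)
    change ∑ p, |x p| = nrm b (∑ p : Unit × Bool, x p • bv (1 : ℤˣ) p.2)
    rw [nrm_eq]
    simp only [Fintype.sum_prod_type, Finset.univ_unique, Finset.sum_singleton, Fintype.sum_bool]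
    rcases b
    · simp [bv]
      try ring
    · simp [bv]
      try ring

theorem ext_u (b : Bool) : (ext b).norm (u b 1) ≤ 1 / 2 := by
  refine ((ext b).norm_le_N (Or.inr (Or.inl ⟨1, rfl⟩))).trans ?_
  change nrm b (u b 1) ≤ 1 / 2
  rw [nrm_eq]
  rcases b <;> simp [u, bv] <;> norm_num

/-- the embedding of the base -/
noncomputable def emb (b : Bool) : Embedding base (ext b) where
  φ := (1 : Unit →* ℤˣ)
  φ_inj := fun x y _ => Subsingleton.elim (α := Unit) x y
  ψ := (id : Bool → Bool)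
  ψ_inj := fun _ _ h => h
  isometric x := (ext_norm b x).trans (base_norm x).symm

/-- **Theorem.** The class of the rational finitely presented actions does not have the
amalgamation property. -/
theorem result : ¬ AmalgamationProperty := by
  intro H
  obtain ⟨D, f₁, f₂, -, hψ⟩ := H base (ext true) (ext false) (emb true) (emb false)
  set g : D.F := f₁.φ (-1 : ℤˣ) with hg
  set h : D.F := f₂.φ (-1 : ℤˣ) with hh
  set m₁ : D.I := f₁.ψ true with hm₁
  set m₂ : D.I := f₁.ψ false with hm₂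
  have h₁ : f₂.ψ true = m₁ := (hψ true).symm
  have h₂ : f₂.ψ false = m₂ := (hψ false).symm
  have o₁ : f₁.φ (1 : ℤˣ) = 1 := map_one f₁.φ
  have o₂ : f₂.φ (1 : ℤˣ) = 1 := map_one f₂.φ
  have hB : D.norm (bv 1 m₁ - (1 / 2 : ℝ) • bv g m₂) ≤ 1 / 2 := by
    have e := f₁.isometric (u true 1)
    have e' : push f₁.φ f₁.ψ (u true 1) = bv 1 m₁ - (1 / 2 : ℝ) • bv g m₂ := by
      have := push_sub_smul f₁.φ f₁.ψ (1 / 2) (1 : ℤˣ) (-1 : ℤˣ) true false
      rw [o₁] at this
      exact this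
    rw [← e', e]
    exact ext_u true
  have hC : D.norm (bv 1 m₂ - (1 / 2 : ℝ) • bv h m₁) ≤ 1 / 2 := by
    have e := f₂.isometric (u false 1)
    have e' : push f₂.φ f₂.ψ (u false 1) = bv 1 m₂ - (1 / 2 : ℝ) • bv h m₁ := by
      have := push_sub_smul f₂.φ f₂.ψ (1 / 2) (1 : ℤˣ) (-1 : ℤˣ) false true
      rw [o₂, h₁, h₂] at this
      exact this
    rw [← e', e]
    exact ext_u false
  obtain ⟨n, hn, hgn⟩ := isOfFinOrder_iff_pow_eq_one.mp (isOfFinOrder_of_finite (g * h))
  obtain ⟨k, rfl⟩ : ∃ k, n = k + 1 := ⟨n - 1, by omega⟩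
  have hh2 : h * h = 1 := by
    have e1 : f₂.φ ((-1 : ℤˣ) * (-1 : ℤˣ) : ℤˣ) = f₂.φ (-1 : ℤˣ) * f₂.φ (-1 : ℤˣ) :=
      map_mul f₂.φ (-1 : ℤˣ) (-1 : ℤˣ)
    have e2 : (-1 : ℤˣ) * (-1 : ℤˣ) = 1 := by decide
    rw [e2] at e1
    exact e1.symm.trans o₂
  have hk : (g * h) ^ k * g = h := by
    have e1 : (g * h) ^ k * g * h = 1 := by rw [mul_assoc, ← pow_succ, hgn]
    calc (g * h) ^ k * g = (g * h) ^ k * g * (h * h) := by rw [hh2, mul_one]
      _ = (g * h) ^ k * g * h * h := by rw [mul_assoc _ h h]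
      _ = h := by rw [e1, one_mul]
  have key := chain D g h m₁ m₂ hB hC k
  rw [hk] at key
  set c : ℝ := (1 / 4 : ℝ) ^ k * (1 / 2) with hc
  have hcpos : 0 < c := by positivity
  have e := f₂.isometric (bv (1 : ℤˣ) true - c • bv (-1 : ℤˣ) false)
  have e' : push f₂.φ f₂.ψ (bv (1 : ℤˣ) true - c • bv (-1 : ℤˣ) false)
      = bv 1 m₁ - c • bv h m₂ := by
    have := push_sub_smul f₂.φ f₂.ψ c (1 : ℤˣ) (-1 : ℤˣ) true false
    rw [o₂, h₁, h₂] at this
    exact this
  rw [e'] at e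
  rw [e] at key
  have low : nrm false (bv (1 : ℤˣ) true - c • bv (-1 : ℤˣ) false)
      ≤ (ext false).norm (bv (1 : ℤˣ) true - c • bv (-1 : ℤˣ) false) :=
    (ext false).le_norm (nrm false) (fun n β w => (nrm_isNorm false).sum _ _ _)
      (fun w _ => le_refl _) _
  have low' : 1 ≤ nrm false (bv (1 : ℤˣ) true - c • bv (-1 : ℤˣ) false) := by
    rw [nrm_eq]
    refine le_add_of_nonneg_of_le (le_max_of_le_left (abs_nonneg _)) (le_max_of_le_right ?_)
    simp [bv]
  linarith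

end Pool.Agent.Results.MP_66eb21_an.NoAmalgamation
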